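import Pool.Agent.Q78.Z3.Fin

set_option autoImplicit false

/-!
# Self-avoiding walks on `ℤ³` in a random domain
-/

namespace Pool.Agent.Results.MP_794e6e_pr.RandomDomains

open MeasureTheory Filter Topology

/-- self-avoiding walks on `ℤ³` with `n` steps from the origin -/
def IsSAW (n : ℕ) (w : Fin (n + 1) → Fin 3 → ℤ) : Prop :=
  w 0 = 0 ∧ (∀ i : Fin n, ∑ j, |w i.succ j - w i.castSucc j| = 1) ∧ Function.Injective w

/-- the number of walks -/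
noncomputable def c (n : ℕ) : ℝ := Nat.card {w : Fin (n + 1) → Fin 3 → ℤ // IsSAW n w}

variable {Ω : Type} [MeasurableSpace Ω]

/-- the mean number of `n`-step walks in a random domain with law `ν`: all the vertices `x` of the
walk satisfy `R ω e x`, where `e` is the end point of the walk -/
noncomputable def F (ν : Measure Ω) (R : Ω → (Fin 3 → ℤ) → (Fin 3 → ℤ) → Prop) (n : ℕ) : ℝ :=
  ∫ ω, (Nat.card {w : Fin (n + 1) → Fin 3 → ℤ //
    IsSAW n w ∧ ∀ i, R ω (w (Fin.last n)) (w i)} : ℝ) ∂ν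

/-- the probability that the uniform `n`-step walk lies in an independent random domain -/
noncomputable def p (ν : Measure Ω) (R : Ω → (Fin 3 → ℤ) → (Fin 3 → ℤ) → Prop) (n : ℕ) : ℝ :=
  F ν R n / c n

/-- random domains -/
def IsDomain (R : Ω → (Fin 3 → ℤ) → (Fin 3 → ℤ) → Prop) : Prop :=
  ∀ e x, MeasurableSet {ω | R ω e x}

/-- the size of the error -/
noncomputable def err (ε : ℝ) (ν : Measure Ω) (R : Ω → (Fin 3 → ℤ) → (Fin 3 → ℤ) → Prop)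
    (n : ℕ) : ℝ :=
  √((Real.log (1 / p ν R n) + (n : ℝ) ^ (1 / 3 + ε)) / n)

/-- **Main result.** -/
theorem result : ∃ μ : ℝ, 0 < μ ∧ Tendsto (fun n : ℕ => c n ^ ((1 : ℝ) / n)) atTop (𝓝 μ) ∧
    ∀ ε : ℝ, 0 < ε → ε < 2 / 3 → ∃ (C δ : ℝ) (N : ℕ), 0 < C ∧ 0 < δ ∧
      ∀ (Ω : Type) [MeasurableSpace Ω] (ν : Measure Ω) [IsProbabilityMeasure ν]
        (R : Ω → (Fin 3 → ℤ) → (Fin 3 → ℤ) → Prop), IsDomain R →
        (∀ n, N ≤ n → Real.exp (-δ * n) ≤ p ν R (n + 2) →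
          F ν R (n + 2) ^ 2 ≤ F ν R n * F ν R (n + 4) * (1 + C / n)) ∧
        (∀ n, N ≤ n → Real.exp (-δ * n) ≤ p ν R n →
          |F ν R (n + 2) / (μ ^ 2 * F ν R n) - 1| ≤ C * err ε ν R n ∧
          ∀ R' : Ω → (Fin 3 → ℤ) → (Fin 3 → ℤ) → Prop, IsDomain R' →
            (∀ ω e x, R' ω e x → R ω e x) →
            |F ν R' (n + 2) / F ν R (n + 2) - F ν R' n / F ν R n| ≤ C * err ε ν R n) ∧
        (∀ n m : ℕ, 1 ≤ n → n ≤ m → 2 ∣ m - n →
          |p ν R m - p ν R n| ≤ C * ((m - n : ℝ) * (n : ℝ) ^ (-(1 / 3 - ε / 2)))) := by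
  have hc : ∀ n, c n = (TH966.KO.c n : ℝ) := by
    intro n
    rw [Q78.Z3.c_fun]
    rfl
  have hF : ∀ {Ω : Type} [MeasurableSpace Ω] (ν : Measure Ω)
      (R : Ω → (Fin 3 → ℤ) → (Fin 3 → ℤ) → Prop) (n : ℕ), F ν R n = Q78.Z3.FF ν R n := by
    intro Ω _ ν R n
    unfold F Q78.Z3.FF
    congr 1
    funext ω
    rw [Q78.Z3.card_KR_fun]
    rfl
  have hp : ∀ {Ω : Type} [MeasurableSpace Ω] (ν : Measure Ω)
      (R : Ω → (Fin 3 → ℤ) → (Fin 3 → ℤ) → Prop) (n : ℕ), p ν R n = Q78.Z3.PP ν R n := by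
    intro Ω _ ν R n
    unfold p Q78.Z3.PP
    rw [hc, hF]
  refine ⟨TH966.KO.μ, by linarith [TH966.KO.mu_one], ?_, fun ε hε hε1 => ?_⟩
  · simp only [hc]
    exact TH966.KO.tend
  · obtain ⟨C, δ, N, hC, hδ, hN, h⟩ := Q78.Z3.main3 ε hε hε1
    refine ⟨C, δ, N, hC, hδ, ?_⟩
    intro Ω _ ν _ R hR
    unfold err
    simp only [hF, hp]
    exact h Ω ν R hR

end Pool.Agent.Results.MP_794e6e_pr.RandomDomains
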