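import Pool.Agent.Q78.Z3.Len

set_option autoImplicit false

/-!
# Self-avoiding walks of random length on `ℤ³` in a random domain
-/

namespace Pool.Agent.Results.MP_794e6e_pr.RandomLength

open MeasureTheory Filter Topology

/-- self-avoiding walks on `ℤ³` with `n` steps from the origin -/
def IsSAW (n : ℕ) (w : Fin (n + 1) → Fin 3 → ℤ) : Prop :=
  w 0 = 0 ∧ (∀ i : Fin n, ∑ j, |w i.succ j - w i.castSucc j| = 1) ∧ Function.Injective w

/-- the number of walks -/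
noncomputable def c (n : ℕ) : ℝ := Nat.card {w : Fin (n + 1) → Fin 3 → ℤ // IsSAW n w}

variable {Ω : Type} [MeasurableSpace Ω]

/-- the mean number of `n`-step walks in a random domain with law `ν`: all the vertices `x` of the
walk satisfy `R ω e x`, where `e` is the end point of the walk -/
noncomputable def F (ν : Measure Ω) (R : Ω → (Fin 3 → ℤ) → (Fin 3 → ℤ) → Prop) (n : ℕ) : ℝ :=
  ∫ ω, (Nat.card {w : Fin (n + 1) → Fin 3 → ℤ //
    IsSAW n w ∧ ∀ i, R ω (w (Fin.last n)) (w i)} : ℝ) ∂ν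

/-- random domains -/
def IsDomain (R : Ω → (Fin 3 → ℤ) → (Fin 3 → ℤ) → Prop) : Prop :=
  ∀ e x, MeasurableSet {ω | R ω e x}

/-- random subdomains -/
def IsSub (R' R : Ω → (Fin 3 → ℤ) → (Fin 3 → ℤ) → Prop) : Prop :=
  IsDomain R' ∧ ∀ ω e x, R' ω e x → R ω e x

/-- admissible weights of the lengths -/
def IsWeight (c κ μ : ℝ) (q : ℕ → ℝ) : Prop :=
  (∀ n, 0 ≤ q n) ∧ (∀ n, q n ≤ (κ / μ) ^ n) ∧
    ∀ n, 1 ≤ n → q (n + 2) ^ 2 ≤ q n * q (n + 4) * (1 + c / n)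

/-- `P(L = n, the walk is in the random domain R)`, for the total weight `T` -/
noncomputable def P (ν : Measure Ω) (q : ℕ → ℝ) (T : ℝ)
    (R : Ω → (Fin 3 → ℤ) → (Fin 3 → ℤ) → Prop) (n : ℕ) : ℝ :=
  F ν R n * q n / T

/-- the size of the error -/
noncomputable def err (C : ℝ) (p : ℝ) (m : ℕ) : ℝ := C * √((1 + Real.log (1 / p)) / m)

/-- **Main result.** -/
theorem result : ∃ μ : ℝ, 0 < μ ∧ Tendsto (fun n : ℕ => c n ^ ((1 : ℝ) / n)) atTop (𝓝 μ) ∧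
    ∀ c₀ : ℝ, 0 ≤ c₀ → ∃ C κ δ : ℝ, 0 < C ∧ 1 < κ ∧ 0 < δ ∧
      ∀ (Ω : Type) [MeasurableSpace Ω] (ν : Measure Ω) [IsProbabilityMeasure ν]
        (R : Ω → (Fin 3 → ℤ) → (Fin 3 → ℤ) → Prop) (q : ℕ → ℝ) (T : ℝ),
        IsDomain R → IsWeight c₀ κ μ q → 0 < T → HasSum (fun n => F ν R n * q n) T →
        ∀ m : ℕ, C * (1 + max 0 (Real.log (1 / T))) ≤ m →
          P ν q T R m ≤ C / √(m : ℝ) ∧
          (∀ R' : ℕ → Ω → (Fin 3 → ℤ) → (Fin 3 → ℤ) → Prop, (∀ i, IsSub (R' i) R) → ∀ k,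
            ∑ i ∈ Finset.range k, |P ν q T (R' i) (m + i + 2) - P ν q T (R' i) (m + i)| ≤
              C / √(m : ℝ)) ∧
          (Real.exp (-δ * m) ≤ P ν q T R m →
            |P ν q T R (m + 2) / P ν q T R m - 1| ≤ err C (P ν q T R m) m ∧
            ∀ R' : Ω → (Fin 3 → ℤ) → (Fin 3 → ℤ) → Prop, IsSub R' R →
              |F ν R' (m + 2) / F ν R (m + 2) - F ν R' m / F ν R m| ≤
                err C (P ν q T R m) m) := by
  have hc : ∀ n, c n = (TH966.KO.c n : ℝ) := by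
    intro n
    rw [Q78.Z3.c_fun]
    rfl
  have hF : ∀ {Ω : Type} [MeasurableSpace Ω] (ν : Measure Ω)
      (R : Ω → (Fin 3 → ℤ) → (Fin 3 → ℤ) → Prop) (n : ℕ), F ν R n = Q78.Z3.FF ν R n := by
    intro Ω _ ν R n
    unfold F Q78.Z3.FF
    congr 1
    funext ω
    rw [Q78.Z3.card_KR_fun]
    rfl
  have hP : ∀ {Ω : Type} [MeasurableSpace Ω] (ν : Measure Ω) (q : ℕ → ℝ) (T : ℝ)
      (R : Ω → (Fin 3 → ℤ) → (Fin 3 → ℤ) → Prop) (n : ℕ), P ν q T R n = Q78.Z3.Pq ν q T R n := by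
    intro Ω _ ν q T R n
    unfold P Q78.Z3.Pq
    rw [hF]
  refine ⟨TH966.KO.μ, by linarith [TH966.KO.mu_one], ?_, fun c₀ hc₀ => ?_⟩
  · simp only [hc]
    exact TH966.KO.tend
  · obtain ⟨C, κ, δ, hC, hκ, hδ, h⟩ := Q78.Z3.lengthLaw c₀ hc₀
    refine ⟨C, κ, δ, hC, hκ, hδ, ?_⟩
    intro Ω _ ν _ R q T hR hq hT hsum m hm
    unfold err
    simp only [hF, hP] at hsum ⊢
    obtain ⟨a1, a2, a3⟩ := h Ω ν R hR q hq.1 hq.2.1 hq.2.2 T hT hsum m hm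
    refine ⟨a1, fun R' hR' k => a2 R' (fun i => (hR' i).1) (fun i => (hR' i).2) k, fun hexp => ?_⟩
    obtain ⟨b1, b2⟩ := a3 hexp
    exact ⟨b1, fun R' hR' => b2 R' hR'.1 hR'.2⟩

end Pool.Agent.Results.MP_794e6e_pr.RandomLength
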