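import Pool.Agent.Q234.HS.Tail4

/-!
# Half-space walks and bridges on `ℤ³` are rare on average

Averages over the length of the probability that a self-avoiding walk on `ℤ³` stays in a set
contained in a half-space, and of the normalised numbers of bridges.
-/

set_option autoImplicit false

namespace Pool.Agent.Results.MP_794e6e_pr.RareHalfSpaceWalks

open Finset Filter Topology
open Pool.Agent.Q234.HS

/-- `w` is an `n`-step self-avoiding walk on `ℤ³` started at the origin. -/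
def IsSAW (n : ℕ) (w : Fin (n + 1) → Fin 3 → ℤ) : Prop :=
  w 0 = 0 ∧ (∀ i : Fin n, ∑ k, |w i.succ k - w i.castSucc k| = 1) ∧ Function.Injective w

/-- the number of `n`-step self-avoiding walks -/
noncomputable def c (n : ℕ) : ℕ := {w | IsSAW n w}.ncard

/-- the probability of `E` for the uniform `n`-step self-avoiding walk -/
noncomputable def prob (n : ℕ) (E : (Fin (n + 1) → Fin 3 → ℤ) → Prop) : ℝ :=
  ({w | IsSAW n w ∧ E w}.ncard : ℝ) / c n

/-- the number of `n`-step bridges: `0 < x (w i) ≤ x (w n)` for all `i ≠ 0`, `x` the first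
coordinate -/
noncomputable def b (n : ℕ) : ℕ :=
  {w : Fin (n + 1) → Fin 3 → ℤ |
    IsSAW n w ∧ ∀ i, i ≠ 0 → 0 < w i 0 ∧ w i 0 ≤ w (Fin.last n) 0}.ncard

/-- the level -/
def lev (a : Fin 3 → ℤ) : (Fin 3 → ℤ) →+ ℤ where
  toFun v := ∑ j, a j * v j
  map_zero' := by simp
  map_add' u v := by simp only [Pi.add_apply, mul_add, sum_add_distrib]

theorem lev_apply (a v : Fin 3 → ℤ) : lev a v = ∑ j, a j * v j := rfl

theorem toNat_eq (a : Fin 3 → ℤ) : (((∑ j, |a j|).toNat : ℕ) : ℝ) = ((∑ j, |a j| : ℤ) : ℝ) := by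
  have h2 : ((∑ j, |a j|).toNat : ℤ) = ∑ j, |a j| :=
    Int.toNat_of_nonneg (sum_nonneg fun j _ => abs_nonneg _)
  exact_mod_cast h2

theorem lev_le (a v : Fin 3 → ℤ) : |(lev a v : ℝ)| ≤
    ((∑ j, |a j|).toNat : ℕ) * Real.sqrt (Pool.Agent.H976R2.SB.nsq v) := by
  have h2 : ∀ k : Fin 3, |(v k : ℝ)| ≤ Real.sqrt (Pool.Agent.H976R2.SB.nsq v) := fun k =>
    Real.abs_le_sqrt (by
      unfold Pool.Agent.H976R2.SB.nsq
      exact single_le_sum (f := fun k => ((v k : ℤ) : ℝ) ^ 2) (fun k _ => sq_nonneg _)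
        (mem_univ k))
  rw [toNat_eq, lev_apply]
  push_cast
  rw [sum_mul]
  refine (abs_sum_le_sum_abs _ _).trans (sum_le_sum fun j _ => ?_)
  rw [abs_mul]
  exact mul_le_mul_of_nonneg_left (h2 j) (abs_nonneg _)

theorem one_le_L {a : Fin 3 → ℤ} (ha : a ≠ 0) : 1 ≤ (∑ j, |a j|).toNat := by
  have h1 : 0 < ∑ j, |a j| := by
    by_contra hcon
    apply ha
    have h2 : ∑ j, |a j| = 0 := le_antisymm (not_lt.1 hcon) (sum_nonneg fun j _ => abs_nonneg _)
    rw [sum_eq_zero_iff_of_nonneg fun j _ => abs_nonneg _] at h2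
    funext j
    exact abs_eq_zero.1 (h2 j (mem_univ j))
  omega

theorem c_eq (n : ℕ) : c n = N (Zd.St 3) Saw n := Zd.c_eq

theorem prob_in (U : Set (Fin 3 → ℤ)) (n : ℕ) : prob n (fun w => ∀ i, i ≠ 0 → w i ∈ U) =
    (N (Zd.St 3) (InK U) n : ℝ) / N (Zd.St 3) Saw n := by
  unfold prob
  rw [c_eq, ← Zd.inK_eq]
  rfl

theorem prob_out (U : Set (Fin 3 → ℤ)) (n : ℕ) : prob n (fun w => ∀ i, i ≠ 0 → w i ∉ U) =
    (N (Zd.St 3) (OutK U) n : ℝ) / N (Zd.St 3) Saw n := by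
  unfold prob
  rw [c_eq, ← Zd.outK_eq]
  rfl

theorem b_eq (n : ℕ) : b n = N (Zd.St 3) (Br (Zd.x1 3 (by norm_num))) n := by
  rw [← Zd.b_eq]
  rfl

/-- **Theorem.** On `ℤ³` there are `κ > 0` and `K` with the following properties for all `M ≥ 3`.
(1) For every `a ≠ 0` in `ℤ³` and every set `U` of points `v` with `a·v > 0`: let `p_k`, `q_k` be
the probabilities that the uniform `k`-step self-avoiding walk stays in `U`, respectively avoids
`U`, after its start; then `(∑_{k ≤ M} p_k) (∑_{k ≤ M} q_k) ≤ K |a|₁ M² (log M)^{-2κ}`.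
(2) The sum over `k ≤ M` of the probabilities that the `k`-step walk stays in the half-space
`a·v > 0` after its start is at most `K |a|₁ M (log M)^{-κ}`.
(3) The sum over `k ≤ M` of `b_k μ^{-k}` is at most `K M (log M)^{-κ}`, `μ` the connective
constant. -/
theorem result : ∃ κ K : ℝ, 0 < κ ∧
    (∀ a : Fin 3 → ℤ, a ≠ 0 → ∀ U : Set (Fin 3 → ℤ), (∀ v ∈ U, 0 < ∑ j, a j * v j) →
      ∀ M : ℕ, 3 ≤ M →
        (∑ k ∈ range (M + 1), prob k (fun w => ∀ i, i ≠ 0 → w i ∈ U)) *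
          (∑ k ∈ range (M + 1), prob k (fun w => ∀ i, i ≠ 0 → w i ∉ U)) ≤
        K * (∑ j, |a j| : ℤ) * ((M : ℝ) ^ 2 / Real.log M ^ (2 * κ))) ∧
    (∀ a : Fin 3 → ℤ, a ≠ 0 → ∀ M : ℕ, 3 ≤ M →
      ∑ k ∈ range (M + 1), prob k (fun w => ∀ i, i ≠ 0 → 0 < ∑ j, a j * w i j) ≤
        K * (∑ j, |a j| : ℤ) * (M / Real.log M ^ κ)) ∧
    ∃ μ : ℝ, 1 ≤ μ ∧ Tendsto (fun n : ℕ => (c n : ℝ) ^ (1 / (n : ℝ))) atTop (𝓝 μ) ∧
      ∀ M : ℕ, 3 ≤ M → ∑ k ∈ range (M + 1), (b k : ℝ) / μ ^ k ≤ K * (M / Real.log M ^ κ) := by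
  obtain ⟨κ₀, K₀, hκ₀, hK₀, hsep⟩ := Zd.sep3 3 (by norm_num)
  have hS := Zd.St_finite 3
  have hneg := Zd.St_neg 3
  have hd0 : 0 < 3 := by norm_num
  have h1 := Zd.x1_one hd0
  obtain ⟨μ, hμ1, hμ2, _, D⟩ := mkDat hS hneg (Zd.x1 3 hd0) h1 (Zd.e1_mem hd0) (Zd.e1_x1 hd0)
  have hμ0 : 0 < μ := by linarith
  obtain ⟨κ₃, K₃, hκ₃, hK₃, hbr⟩ := Zd.br3 μ hμ1 hμ2 (fun n => by
    have := D.b_le n
    rwa [div_le_one (by positivity)] at this)
  set κ := min (κ₀ / 2) κ₃ with hκ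
  have hκ1 : 2 * κ ≤ κ₀ := by
    have := min_le_left (κ₀ / 2) κ₃
    linarith
  have hκ2 : κ ≤ κ₃ := min_le_right _ _
  have hκ0 : 0 < κ := lt_min (by linarith) hκ₃
  have hlog : ∀ M : ℕ, 3 ≤ M → 1 ≤ Real.log M := by
    intro M hM
    have h2 : Real.exp 1 ≤ M := by
      have := Real.exp_one_lt_d9
      have h3 : (3 : ℝ) ≤ M := by exact_mod_cast hM
      linarith
    have h3 := Real.log_le_log (Real.exp_pos 1) h2
    rwa [Real.log_exp] at h3
  have hprod : ∀ a : Fin 3 → ℤ, a ≠ 0 → ∀ U : Set (Fin 3 → ℤ), (∀ v ∈ U, 0 < ∑ j, a j * v j) →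
      ∀ M : ℕ, 3 ≤ M →
        (∑ k ∈ range (M + 1), prob k (fun w => ∀ i, i ≠ 0 → w i ∈ U)) *
          (∑ k ∈ range (M + 1), prob k (fun w => ∀ i, i ≠ 0 → w i ∉ U)) ≤
        K₀ * (∑ j, |a j| : ℤ) * ((M : ℝ) ^ 2 / Real.log M ^ (2 * κ)) := by
    intro a ha U hU M hM
    have h2 := (hsep (lev a) _ (one_le_L ha) (lev_le a) U hU).2 M (by omega)
    rw [toNat_eq] at h2
    simp only [prob_in, prob_out]
    refine h2.trans ?_
    have hl := hlog M hM
    have h3 : Real.log M ^ (2 * κ) ≤ Real.log M ^ κ₀ :=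
      Real.rpow_le_rpow_of_exponent_le hl hκ1
    have h4 : (0 : ℝ) ≤ K₀ * (∑ j, |a j| : ℤ) := by
      have : (0 : ℤ) ≤ ∑ j, |a j| := sum_nonneg fun j _ => abs_nonneg _
      have : (0 : ℝ) ≤ ((∑ j, |a j| : ℤ) : ℝ) := by exact_mod_cast this
      positivity
    have h5 : 0 < Real.log M ^ (2 * κ) := by positivity
    gcongr
  refine ⟨κ, max (max K₀ 1) K₃, hκ0, ?_, ?_, μ, hμ1, ?_, ?_⟩
  · intro a ha U hU M hM
    refine (hprod a ha U hU M hM).trans ?_
    have h4 : (0 : ℝ) ≤ ((∑ j, |a j| : ℤ) : ℝ) := by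
      have : (0 : ℤ) ≤ ∑ j, |a j| := sum_nonneg fun j _ => abs_nonneg _
      exact_mod_cast this
    have hl := hlog M hM
    have h5 : (0 : ℝ) ≤ (M : ℝ) ^ 2 / Real.log M ^ (2 * κ) := by positivity
    have h6 : K₀ ≤ max (max K₀ 1) K₃ := (le_max_left _ _).trans (le_max_left _ _)
    gcongr
  · intro a ha M hM
    have hl := hlog M hM
    set P := ∑ k ∈ range (M + 1), prob k (fun w => ∀ i, i ≠ 0 → 0 < ∑ j, a j * w i j) with hP
    have hP0 : 0 ≤ P := sum_nonneg fun k _ => by unfold prob; positivity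
    have h2 := hprod a ha {v | 0 < ∑ j, a j * v j} (fun v hv => hv) M hM
    have h3 : P ≤ ∑ k ∈ range (M + 1),
        prob k (fun w => ∀ i, i ≠ 0 → w i ∉ {v : Fin 3 → ℤ | 0 < ∑ j, a j * v j}) := by
      refine sum_le_sum fun k _ => ?_
      have e1 := prob_in {v : Fin 3 → ℤ | 0 < ∑ j, a j * v j} k
      have e2 := prob_out {v : Fin 3 → ℤ | 0 < ∑ j, a j * v j} k
      have e3 : prob k (fun w => ∀ i, i ≠ 0 → 0 < ∑ j, a j * w i j) =
          (N (Zd.St 3) (InK {v : Fin 3 → ℤ | 0 < ∑ j, a j * v j}) k : ℝ) /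
            N (Zd.St 3) Saw k := e1
      rw [e3, e2]
      refine div_le_div_of_nonneg_right ?_ (Nat.cast_nonneg _)
      have e4 : N (Zd.St 3) (InK {v : Fin 3 → ℤ | 0 < ∑ j, a j * v j}) k =
          N (Zd.St 3) (Half (lev a)) k := N_InK_half (Zd.St 3) (lev a) k
      have e5 : N (Zd.St 3) (OutK {v : Fin 3 → ℤ | 0 < ∑ j, a j * v j}) k =
          N (Zd.St 3) (Wk (lev a)) k := N_OutK_half hneg (lev a) k
      rw [e4, e5]
      have e6 : ∀ w, Half (lev a) w → Wk (lev a) w := by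
        rintro w ⟨h4, h5⟩
        refine ⟨h4, fun u hu => ?_⟩
        by_cases hu0 : u = []
        · simp [hu0]
        · exact (h5 u hu0 hu).le
      exact_mod_cast N_mono hS e6 k
    have h4 : P ^ 2 ≤ K₀ * (∑ j, |a j| : ℤ) * ((M : ℝ) ^ 2 / Real.log M ^ (2 * κ)) := by
      refine le_trans ?_ h2
      rw [sq]
      exact mul_le_mul_of_nonneg_left h3 hP0
    have hL : (1 : ℝ) ≤ ((∑ j, |a j| : ℤ) : ℝ) := by
      rw [← toNat_eq]
      exact_mod_cast one_le_L ha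
    set L : ℝ := ((∑ j, |a j| : ℤ) : ℝ) with hLdef
    set Q : ℝ := max (max K₀ 1) K₃ with hQ
    have hQ1 : 1 ≤ Q := (le_max_right _ _).trans (le_max_left _ _)
    have hQK : K₀ ≤ Q := (le_max_left _ _).trans (le_max_left _ _)
    have h5 : (Real.log M ^ κ) ^ 2 = Real.log M ^ (2 * κ) := by
      rw [← Real.rpow_natCast, ← Real.rpow_mul (by linarith)]
      congr 1
      push_cast
      ring
    have h6 : P ^ 2 ≤ (Q * L * (M / Real.log M ^ κ)) ^ 2 := by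
      refine h4.trans ?_
      rw [mul_pow, div_pow, h5]
      refine mul_le_mul_of_nonneg_right ?_ (by positivity)
      have h7 : K₀ * L ≤ Q * L := by gcongr
      have h8 : 1 ≤ Q * L := by nlinarith
      nlinarith
    exact le_of_sq_le_sq h6 (by positivity)
  · simp only [c_eq]
    exact hμ2
  · intro M hM
    have hl := hlog M hM
    simp only [b_eq]
    refine (hbr M (by omega)).trans ?_
    have h3 : Real.log M ^ κ ≤ Real.log M ^ κ₃ := Real.rpow_le_rpow_of_exponent_le hl hκ2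
    have h5 : 0 < Real.log M ^ κ := by positivity
    have h6 : K₃ ≤ max (max K₀ 1) K₃ := le_max_right _ _
    gcongr

end Pool.Agent.Results.MP_794e6e_pr.RareHalfSpaceWalks
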