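import Pool.Agent.Q294.Sp2
import Pool.Agent.TH966.KO.WEnd

/-!
# The numbers of self-avoiding walks on `ℤ³` along sparse sets of lengths

`c n` is the number of `n`-step self-avoiding walks on `ℤ³` started at the origin and `μ` the limit
of `c n ^ (1 / n)`. The asymptotic form `c n ∼ A μ ^ n n ^ (γ - 1)` holds for all lengths as soon as
it holds along a set of lengths whose gaps (within each class modulo two) are `o(√n)`; two-sided
bounds of this form hold for all lengths as soon as they hold along a set of lengths with gaps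
`O(√n)`; the asymptotic form follows from the asymptotics of the partial sums of
`c k μ ^ (-k)` (over the `k` of one parity) with an error `o(n ^ (γ - 1/2))`; the exponent `γ` exists, in the sense of logarithms, as soon as it exists along a set of
lengths with gaps `o(√(n log n))`; and the ratio `c (n + 2) / c n` exceeds its limit `μ²` by at most
`K n ^ (-2/5 + ε)`.
-/

set_option autoImplicit false

namespace Pool.Agent.Results.MP_794e6e_pr.SparseLengths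

open Filter Topology

/-- `ω` is an `n`-step self-avoiding walk on `ℤ³` started at the origin. -/
def IsSAW (n : ℕ) (ω : Fin (n + 1) → Fin 3 → ℤ) : Prop :=
  ω 0 = 0 ∧ (∀ i : Fin n, ∑ j, |ω i.succ j - ω i.castSucc j| = 1) ∧ Function.Injective ω

/-- the number of `n`-step self-avoiding walks on `ℤ³` -/
noncomputable def c (n : ℕ) : ℕ := {ω | IsSAW n ω}.ncard

theorem c_eq (n : ℕ) : c n = TH966.KO.c n := TH966.KO.ncard_eq n

/-- the normalised numbers -/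
noncomputable def Y (n : ℕ) : ℝ := (TH966.KO.c n : ℝ) / TH966.KO.μ ^ n

theorem mu_pos : 0 < TH966.KO.μ := by linarith [TH966.KO.mu_one]

theorem reg : ∃ D : ℝ, Q294.Sp1.Reg Y D (1 / 2) := by
  obtain ⟨D, hD, h⟩ := TH966.KO.kes_ys
  exact ⟨D, fun n => div_pos (TH966.KO.c_pos n) (pow_pos mu_pos n), hD, by norm_num, by norm_num,
    fun s _ => h (1 / 2) s⟩

theorem nb : ∃ M : ℝ, Q294.Sp1.Nb Y M := by
  have hμ := mu_pos
  have hμ1 := TH966.KO.mu_one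
  obtain ⟨K, hK⟩ := TH966.KO.rates (1 / 6) (by norm_num)
  have t1 : Tendsto (fun n : ℕ => K * (n : ℝ) ^ (-(1 / 3 : ℝ) + 1 / 6)) atTop (𝓝 0) := by
    have e : (-(1 / 3 : ℝ) + 1 / 6) = -(1 / 6) := by norm_num
    rw [e]
    have := ((tendsto_rpow_neg_atTop (show (0 : ℝ) < 1 / 6 by norm_num)).comp
      tendsto_natCast_atTop_atTop).const_mul K
    rw [mul_zero] at this
    exact this
  have hc1 := TH966.KO.c_pos 1
  -- `c n ≤ M₁ * c (n + 1)` for large `n`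
  have hev : ∀ᶠ n : ℕ in atTop,
      (TH966.KO.c n : ℝ) / TH966.KO.c (n + 1) ≤ 2 * (TH966.KO.c 1 : ℝ) := by
    filter_upwards [hK, t1.eventually_lt_const (show (0 : ℝ) < 1 / 2 by norm_num)] with n h1 h2
    have hn := TH966.KO.c_pos n
    have hn1 := TH966.KO.c_pos (n + 1)
    have h3 : (TH966.KO.c (n + 2) : ℝ) ≤ TH966.KO.c (n + 1) * TH966.KO.c 1 := by
      exact_mod_cast TH966.KO.c_add (n + 1) 1
    have h4 : 1 / 2 ≤ (TH966.KO.c (n + 2) : ℝ) / TH966.KO.c n := by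
      have : 1 ≤ TH966.KO.μ ^ 2 := one_le_pow₀ hμ1
      linarith [h1.1]
    rw [le_div_iff₀ hn] at h4
    rw [div_le_iff₀ hn1]
    linarith
  obtain ⟨N, hN⟩ := eventually_atTop.1 hev
  obtain ⟨M₁, hM₁⟩ : ∃ M₁ : ℝ, ∀ n : ℕ, (TH966.KO.c n : ℝ) / TH966.KO.c (n + 1) ≤ M₁ := by
    refine ⟨2 * (TH966.KO.c 1 : ℝ) + ∑ k ∈ Finset.range N,
      (TH966.KO.c k : ℝ) / TH966.KO.c (k + 1), fun n => ?_⟩
    have hs : ∀ k ∈ Finset.range N, 0 ≤ (TH966.KO.c k : ℝ) / TH966.KO.c (k + 1) :=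
      fun k _ => (div_pos (TH966.KO.c_pos k) (TH966.KO.c_pos (k + 1))).le
    rcases lt_or_ge n N with h | h
    · have h1 := Finset.single_le_sum hs (Finset.mem_range.2 h)
      linarith
    · have h1 := Finset.sum_nonneg hs
      linarith [hN n h]
  have hM₁0 : 0 < M₁ := lt_of_lt_of_le (div_pos (TH966.KO.c_pos 0) (TH966.KO.c_pos 1)) (hM₁ 0)
  refine ⟨|Real.log (TH966.KO.c 1)| + |Real.log M₁| + |Real.log TH966.KO.μ|, by positivity,
    fun n => ?_⟩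
  have hn := TH966.KO.c_pos n
  have hn1 := TH966.KO.c_pos (n + 1)
  have e1 : ∀ m : ℕ, Real.log (Y m) = Real.log (TH966.KO.c m) - m * Real.log TH966.KO.μ := by
    intro m
    unfold Y
    rw [Real.log_div (TH966.KO.c_pos m).ne' (pow_pos hμ m).ne', Real.log_pow]
  have h1 : Real.log (TH966.KO.c (n + 1)) ≤ Real.log (TH966.KO.c n) + Real.log (TH966.KO.c 1) := by
    rw [← Real.log_mul hn.ne' hc1.ne']
    exact Real.log_le_log hn1 (by exact_mod_cast TH966.KO.c_add n 1)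
  have h2 : Real.log (TH966.KO.c n) ≤ Real.log M₁ + Real.log (TH966.KO.c (n + 1)) := by
    rw [← Real.log_mul hM₁0.ne' hn1.ne']
    refine Real.log_le_log hn ?_
    have := hM₁ n
    rwa [div_le_iff₀ hn1] at this
  have e2 : Real.log (Y (n + 1)) - Real.log (Y n) =
      (Real.log (TH966.KO.c (n + 1)) - Real.log (TH966.KO.c n)) - Real.log TH966.KO.μ := by
    rw [e1, e1]
    push_cast
    ring
  rw [e2]
  have a1 := le_abs_self (Real.log (TH966.KO.c 1 : ℝ))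
  have a2 := le_abs_self (Real.log M₁)
  have a3 := le_abs_self (Real.log TH966.KO.μ)
  have a4 := neg_abs_le (Real.log TH966.KO.μ)
  have a5 := abs_nonneg (Real.log (TH966.KO.c 1 : ℝ))
  have a6 := abs_nonneg (Real.log M₁)
  rw [abs_le]
  constructor <;> linarith

theorem form_eq (β : ℝ) (n : ℕ) :
    (c n : ℝ) / (TH966.KO.μ ^ n * (n : ℝ) ^ β) = Y n / (n : ℝ) ^ β := by
  unfold Y
  rw [div_div, c_eq]

/-- **Theorem.** On `ℤ³` the limit `μ` of `c_n^(1/n)` exists, `μ ≥ 1`, and for every set `S` of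
lengths:

* (form) if for every `δ > 0` and all large `n` there is `k ∈ S` of the parity of `n` with
  `n ≤ k ≤ n + δ √n`, and `c_n / (μ^n n^(γ-1)) → A > 0` along `S`, then
  `c_n / (μ^n n^(γ-1)) → A` along all `n`;
* (bounds) if for some `C` and all large `n` there is `k ∈ S` with `n ≤ k ≤ n + C √n`, and
  `c₁ ≤ c_n / (μ^n n^(γ-1)) ≤ c₂` for the large `n ∈ S`, with `c₁ > 0`, then this holds with other
  constants for all large `n`;
* (partial sums) if the sum of `c_k / μ^k` over the `k ≤ n` of the parity of `n` is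
  `A / (2γ) n^γ + o(n^(γ-1/2))`, where `A, γ > 0`, then `c_n / (μ^n n^(γ-1)) → A`;
* (exponent) if for every `δ > 0` and all large `n` there is `k ∈ S` with
  `n ≤ k ≤ n + δ √(n log n)`, and `log (c_n / μ^n) / log n → γ - 1` along `S`, then this holds along
  all `n`.

Moreover, for every `ε > 0` there is `K` with `c_(n+2) / c_n ≤ μ² + K n^(-2/5+ε)` for all
`n ≥ 1`. -/
theorem result : ∃ μ : ℝ, 1 ≤ μ ∧
    Tendsto (fun n : ℕ => (c n : ℝ) ^ (1 / (n : ℝ))) atTop (𝓝 μ) ∧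
    (∀ S : Set ℕ, (∀ δ : ℝ, 0 < δ → ∀ᶠ n : ℕ in atTop, ∃ k ∈ S, k % 2 = n % 2 ∧ n ≤ k ∧
        (k : ℝ) ≤ n + δ * √n) →
      ∀ A γ : ℝ, 0 < A →
      Tendsto (fun n : ℕ => (c n : ℝ) / (μ ^ n * (n : ℝ) ^ (γ - 1))) (atTop ⊓ 𝓟 S) (𝓝 A) →
      Tendsto (fun n : ℕ => (c n : ℝ) / (μ ^ n * (n : ℝ) ^ (γ - 1))) atTop (𝓝 A)) ∧
    (∀ (S : Set ℕ) (C : ℝ), (∀ᶠ n : ℕ in atTop, ∃ k ∈ S, n ≤ k ∧ (k : ℝ) ≤ n + C * √n) →
      ∀ γ c₁ c₂ : ℝ, 0 < c₁ →
      (∀ᶠ n : ℕ in atTop, n ∈ S → c₁ ≤ (c n : ℝ) / (μ ^ n * (n : ℝ) ^ (γ - 1)) ∧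
        (c n : ℝ) / (μ ^ n * (n : ℝ) ^ (γ - 1)) ≤ c₂) →
      ∃ c₃ c₄ : ℝ, 0 < c₃ ∧ ∀ᶠ n : ℕ in atTop,
        c₃ ≤ (c n : ℝ) / (μ ^ n * (n : ℝ) ^ (γ - 1)) ∧
        (c n : ℝ) / (μ ^ n * (n : ℝ) ^ (γ - 1)) ≤ c₄) ∧
    (∀ A γ : ℝ, 0 < A → 0 < γ →
      Tendsto (fun n : ℕ => ((∑ j ∈ Finset.range (n / 2 + 1), (c (n - 2 * j) : ℝ) /
        μ ^ (n - 2 * j)) - A / (2 * γ) * (n : ℝ) ^ γ) / (n : ℝ) ^ (γ - 1 / 2)) atTop (𝓝 0) →
      Tendsto (fun n : ℕ => (c n : ℝ) / (μ ^ n * (n : ℝ) ^ (γ - 1))) atTop (𝓝 A)) ∧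
    (∀ S : Set ℕ, (∀ δ : ℝ, 0 < δ → ∀ᶠ n : ℕ in atTop, ∃ k ∈ S, n ≤ k ∧
        (k : ℝ) ≤ n + δ * √(n * Real.log n)) →
      ∀ γ : ℝ,
      Tendsto (fun n : ℕ => Real.log ((c n : ℝ) / μ ^ n) / Real.log n) (atTop ⊓ 𝓟 S)
        (𝓝 (γ - 1)) →
      Tendsto (fun n : ℕ => Real.log ((c n : ℝ) / μ ^ n) / Real.log n) atTop (𝓝 (γ - 1))) ∧
    ∀ ε : ℝ, 0 < ε → ∃ K : ℝ, ∀ n : ℕ, 1 ≤ n →
      (c (n + 2) : ℝ) / c n ≤ μ ^ 2 + K * (n : ℝ) ^ (-(2 / 5 : ℝ) + ε) := by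
  obtain ⟨D, hD⟩ := reg
  obtain ⟨M, hM⟩ := nb
  have hY : ∀ n : ℕ, (c n : ℝ) / TH966.KO.μ ^ n = Y n := fun n => by rw [c_eq]; rfl
  have hY1 : ∀ n : ℕ, 1 ≤ Y n := fun n => by
    unfold Y
    rw [one_le_div (pow_pos mu_pos n)]
    exact TH966.KO.mu_pow n
  refine ⟨TH966.KO.μ, TH966.KO.mu_one, ?_, ?_, ?_, ?_, ?_, ?_⟩
  · simp only [c_eq]
    exact TH966.KO.tend
  · intro S hS A γ hA h
    simp only [form_eq] at h ⊢
    exact Q294.Sp1.form hD S hS A (γ - 1) hA h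
  · intro S C hS γ c₁ c₂ hc h
    simp only [form_eq] at h ⊢
    exact Q294.Sp1.bounds hD hM S C hS (γ - 1) c₁ c₂ hc h
  · intro A γ hA hγ h
    simp only [form_eq]
    simp only [hY] at h
    exact Q294.Sp2.tauber hD hY1 hA hγ h
  · intro S hS γ h
    simp only [hY] at h ⊢
    exact Q294.Sp1.expo hD hM S hS (γ - 1) h
  · intro ε hε
    obtain ⟨K, hK⟩ := TH966.KO.rates ε hε
    obtain ⟨N, hN⟩ := eventually_atTop.1 hK
    have hr : ∀ n : ℕ, 0 < (TH966.KO.c (n + 2) : ℝ) / TH966.KO.c n :=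
      fun n => div_pos (TH966.KO.c_pos _) (TH966.KO.c_pos _)
    refine ⟨|K| + ∑ k ∈ Finset.range N, (TH966.KO.c (k + 2) : ℝ) / TH966.KO.c k /
      (k : ℝ) ^ (-(2 / 5 : ℝ) + ε), fun n hn => ?_⟩
    have hn0 : (0 : ℝ) < n := by exact_mod_cast hn
    have hx : 0 < (n : ℝ) ^ (-(2 / 5 : ℝ) + ε) := Real.rpow_pos_of_pos hn0 _
    have hs : ∀ k ∈ Finset.range N, 0 ≤ (TH966.KO.c (k + 2) : ℝ) / TH966.KO.c k /
        (k : ℝ) ^ (-(2 / 5 : ℝ) + ε) :=
      fun k _ => div_nonneg (hr k).le (by positivity)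
    have hμ2 : 0 < TH966.KO.μ ^ 2 := pow_pos mu_pos 2
    rw [c_eq, c_eq, add_mul]
    rcases lt_or_ge n N with h | h
    · have h1 := Finset.single_le_sum hs (Finset.mem_range.2 h)
      rw [div_le_iff₀ hx] at h1
      have h2 : 0 ≤ |K| * (n : ℝ) ^ (-(2 / 5 : ℝ) + ε) := by positivity
      linarith
    · have h1 := (hN n h).2
      have h2 := mul_le_mul_of_nonneg_right (le_abs_self K) hx.le
      have h3 := mul_nonneg (Finset.sum_nonneg hs) hx.le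
      linarith

end Pool.Agent.Results.MP_794e6e_pr.SparseLengths
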